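import Pool.Agent.H47.SQ.Targets3
import Pool.Agent.H86.SSM.DGX
import Pool.Agent.H67.PLN.PL2

/-!
# Row XPB of the board ppz_modules: a fixed assignment is good, clauses in a large set
-/

set_option autoImplicit false

namespace Pool.Agent.H40.SQX

open Finset Pool.Agent.H97.RK Pool.Agent.H41.SS Pool.Agent.H47.SR

/-- the number of the subsets with at most `a` elements -/
theorem card_small {α : Type} [DecidableEq α] (B : Finset α) (a N : ℕ) (hN : B.card ≤ N) :
    (B.powerset.filter fun S => S.card ≤ a).card ≤ bl N a := by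
  have h1 : (B.powerset.filter fun S => S.card ≤ a) ⊆
      (range (a + 1)).biUnion fun i => powersetCard i B := by
    intro S hS
    rw [mem_filter, mem_powerset] at hS
    rw [mem_biUnion]
    exact ⟨S.card, mem_range.2 (by omega), mem_powersetCard.2 ⟨hS.1, rfl⟩⟩
  refine (card_le_card h1).trans (card_biUnion_le.trans ?_)
  unfold bl
  refine sum_le_sum fun i _ => ?_
  rw [card_powersetCard]
  exact Nat.choose_le_choose i hN

theorem card_pre_compl (n u : ℕ) : ((pre n (n - u))ᶜ).card ≤ u := by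
  have h1 : (pre n (n - u)).card = n - u := by
    unfold pre
    have h2 : (univ.filter fun v : Fin n => v.1 < n - u).card =
        ((range (n - u))).card := by
      refine Finset.card_bij (fun v _ => v.1) ?_ ?_ ?_
      · intro v hv
        rw [mem_filter] at hv
        exact mem_range.2 hv.2
      · intro v _ w _ h
        exact Fin.ext h
      · intro i hi
        rw [mem_range] at hi
        exact ⟨⟨i, by omega⟩, mem_filter.2 ⟨mem_univ _, hi⟩, rfl⟩
    rw [h2, card_range]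
  rw [card_compl, Fintype.card_fin, h1]
  omega

/-- the pairs `(R, W)` -/
def IX (n t t₁ d u u₁ : ℕ) : Finset (Finset (Fin n) × Finset (Fin n)) :=
  univ.filter fun a => a.1 ⊆ (pre n (n - u))ᶜ ∧ a.2.card ≤ 12 * t ∧
    (a.2 ∩ pre n (n - u₁)).card ≤ 2 * t₁ ∧ Disjoint a.1 a.2 ∧ d ≤ a.1.card

theorem card_IX (n t t₁ d u u₁ : ℕ) :
    (IX n t t₁ d u u₁).card ≤ 2 ^ u * bl n (2 * t₁) * bl u₁ (12 * t) := by
  have h1 : (IX n t t₁ d u u₁).card ≤
      ((((pre n (n - u))ᶜ).powerset ×ˢ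
        ((univ : Finset (Fin n)).powerset.filter fun S => S.card ≤ 2 * t₁)) ×ˢ
        (((pre n (n - u₁))ᶜ).powerset.filter fun S => S.card ≤ 12 * t)).card := by
    refine card_le_card_of_injOn
      (fun a => ((a.1, a.2 ∩ pre n (n - u₁)), a.2 \ pre n (n - u₁))) ?_ ?_
    · intro a ha
      have ha' := mem_coe.1 ha
      unfold IX at ha'
      rw [mem_filter] at ha'
      obtain ⟨-, h1, h2, h3, h4, h5⟩ := ha'
      rw [mem_coe, mem_product, mem_product, mem_filter, mem_filter, mem_powerset, mem_powerset,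
        mem_powerset]
      refine ⟨⟨h1, subset_univ _, h3⟩, ?_, (card_le_card sdiff_subset).trans h2⟩
      intro v hv
      rw [mem_sdiff] at hv
      rw [mem_compl]
      exact hv.2
    · intro a _ b _ h
      have h1 : a.1 = b.1 := congrArg (fun p => p.1.1) h
      have h2 : a.2 ∩ pre n (n - u₁) = b.2 ∩ pre n (n - u₁) := congrArg (fun p => p.1.2) h
      have h3 : a.2 \ pre n (n - u₁) = b.2 \ pre n (n - u₁) := congrArg (fun p => p.2) h
      refine Prod.ext h1 ?_
      rw [← sdiff_union_inter a.2 (pre n (n - u₁)), ← sdiff_union_inter b.2 (pre n (n - u₁)),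
        h2, h3]
  rw [card_product, card_product, card_powerset] at h1
  refine h1.trans (Nat.mul_le_mul (Nat.mul_le_mul ?_ ?_) ?_)
  · exact Nat.pow_le_pow_right (by norm_num) (card_pre_compl n u)
  · exact card_small _ _ _ (by rw [card_univ, Fintype.card_fin])
  · exact card_small _ _ _ (card_pre_compl n u₁)

theorem pf_XPB : T_XPB := by
  classical
  intro n k m t t₁ d u u₁ Ω hn hk hd hΩ hΩ2 x
  obtain ⟨N, hN⟩ : ∃ N : ℝ, N = Ω.card := ⟨_, rfl⟩
  unfold prB
  rw [← hN]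
  have hn0 : (0 : ℝ) < n := by exact_mod_cast hn
  have hOm : (0 : ℝ) < ((Om n k).card : ℝ) := by exact_mod_cast card_Om_pos hk
  have hOm2 : ((Om n k).card : ℝ) ≤ 2 * N := by
    rw [hN]
    exact_mod_cast hΩ2
  have hNpos : 0 < N := by linarith
  obtain ⟨a₀, ha₀⟩ : ∃ a₀ : ℕ, a₀ = n - d + 12 * t := ⟨_, rfl⟩
  have ha₀' : (a₀ : ℝ) = (n : ℝ) - d + 12 * t := by
    rw [ha₀]
    push_cast [hd]
    ring
  rw [← ha₀']
  have hch : (2 : ℝ) ^ t * m.choose t ≤ (2 * m).choose t := by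
    exact_mod_cast Pool.Agent.H67.PLN.two_pow_mul_choose m t
  obtain ⟨P, hP⟩ : ∃ P : Finset (Fin n) × Finset (Fin n) → (Fin k → Fin n × Bool) → Prop,
      ∀ a h, P a h ↔
        ∀ i, (h i).1 ∈ (a.1 ∪ a.2)ᶜ ∪ a.2 ∧ ((h i).1 ∈ (a.1 ∪ a.2)ᶜ → x (h i).1 ≠ (h i).2) :=
    ⟨fun a h => ∀ i, (h i).1 ∈ (a.1 ∪ a.2)ᶜ ∪ a.2 ∧
      ((h i).1 ∈ (a.1 ∪ a.2)ᶜ → x (h i).1 ≠ (h i).2), fun _ _ => Iff.rfl⟩
  let I : Finset (Finset (Fin n) × Finset (Fin n)) := IX n t t₁ d u u₁
  let S : Finset (Fin n) × Finset (Fin n) → Finset (Fml n k m) := fun a =>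
    univ.filter fun F => (∀ c, F c ∈ Ω) ∧ t ≤ (univ.filter fun c => P a (F c)).card
  have hsub : (univ.filter fun F : Fml n k m => (∀ c, F c ∈ Ω) ∧ ¬ GdB F t t₁ d u u₁ x) ⊆
      I.biUnion S := by
    intro F hF
    rw [mem_filter] at hF
    have hX := hF.2.2
    unfold GdB at hX
    push Not at hX
    obtain ⟨T, W, hdis, hWw, hW1, hTW, hpre, hD⟩ := hX
    have hcU : (T ∪ W)ᶜ.card = n - (T.card + W.card) := by
      rw [card_compl, Fintype.card_fin, card_union_of_disjoint hdis]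
    have hT : ((T ∪ W)ᶜ ∪ W)ᶜ = T := by
      ext v
      rw [mem_compl, mem_union, mem_compl, mem_union, not_or, not_not]
      constructor
      · rintro ⟨h1, h2⟩
        exact h1.resolve_right h2
      · intro h1
        exact ⟨Or.inl h1, disjoint_left.1 hdis h1⟩
    rw [mem_biUnion]
    refine ⟨((T ∪ W)ᶜ, W), ?_, ?_⟩
    · change _ ∈ IX n t t₁ d u u₁
      unfold IX
      rw [mem_filter]
      refine ⟨mem_univ _, ?_, hWw, hW1, ?_, ?_⟩
      · exact compl_subset_compl.2 hpre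
      · rw [disjoint_left]
        intro v hv hv'
        exact (mem_compl.1 hv) (mem_union_right _ hv')
      · change d ≤ (T ∪ W)ᶜ.card
        omega
    · rw [mem_filter]
      refine ⟨mem_univ _, hF.2.1, hD.trans (card_le_card ?_)⟩
      intro c hc
      rw [mem_filter] at hc ⊢
      refine ⟨mem_univ _, (hP _ _).2 fun i => ?_⟩
      obtain ⟨-, hc1, hc2⟩ := hc
      change (F c i).1 ∈ ((T ∪ W)ᶜ ∪ W)ᶜ ∪ W ∧
        ((F c i).1 ∈ ((T ∪ W)ᶜ ∪ W)ᶜ → x (F c i).1 ≠ (F c i).2)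
      rw [hT]
      exact ⟨hc1 i, hc2 i⟩
  have hb : ∀ a ∈ I, ((S a).card : ℝ) ≤
      (2 * m).choose t * ((a₀ : ℝ) / (2 * n)) ^ (k * t) * N ^ m := by
    intro a ha
    have ha' : a ∈ IX n t t₁ d u u₁ := ha
    unfold IX at ha'
    rw [mem_filter] at ha'
    obtain ⟨-, -, hW, -, hdis, hR⟩ := ha'
    have h1 : ((S a).card : ℝ) * N ^ t ≤
        m.choose t * ((Ω.filter (P a)).card : ℝ) ^ t * N ^ m := by
      rw [hN]
      exact count_over' m t Ω (P a) (S a) (fun F hF => (mem_filter.1 hF).2)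
    have h2 : ((Ω.filter (P a)).card : ℝ) ≤ ((a₀ : ℝ) / (2 * n)) ^ k * (2 * N) := by
      have h3 := Pool.Agent.H66.RKS.card_lit x (a.1 ∪ a.2)ᶜ a.2
      have h4 : ((a.1 ∪ a.2)ᶜ).card = n - (a.1.card + a.2.card) := by
        rw [card_compl, Fintype.card_fin, card_union_of_disjoint hdis]
      have h7 : a.1.card + a.2.card ≤ n := by
        have := card_le_univ (a.1 ∪ a.2)
        rw [card_union_of_disjoint hdis, Fintype.card_fin] at this
        exact this
      rw [h4] at h3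
      have h5 := Pool.Agent.H86.SSM.card_clD' (k := k) _ a₀ (h3.trans (by omega)) hk hn (P a) (by
        intro g hg i
        rw [mem_filter]
        exact ⟨mem_univ _, (hP a g).1 hg i⟩)
      have h6 : ((Ω.filter (P a)).card : ℝ) ≤ (((Om n k).filter (P a)).card : ℝ) := by
        exact_mod_cast card_le_card (filter_subset_filter _ hΩ)
      exact h6.trans (h5.trans (mul_le_mul_of_nonneg_left hOm2 (by positivity)))
    have h4 : ((S a).card : ℝ) * N ^ t ≤
        ((2 * m).choose t * ((a₀ : ℝ) / (2 * n)) ^ (k * t) * N ^ m) * N ^ t := by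
      calc ((S a).card : ℝ) * N ^ t
          ≤ m.choose t * ((Ω.filter (P a)).card : ℝ) ^ t * N ^ m := h1
        _ ≤ m.choose t * (((a₀ : ℝ) / (2 * n)) ^ k * (2 * N)) ^ t * N ^ m := by
            gcongr
        _ = (2 ^ t * m.choose t) * (((a₀ : ℝ) / (2 * n)) ^ (k * t) * N ^ m) * N ^ t := by
            rw [mul_pow, mul_pow, ← pow_mul]; ring
        _ ≤ (2 * m).choose t * (((a₀ : ℝ) / (2 * n)) ^ (k * t) * N ^ m) * N ^ t := by
            gcongr
        _ = ((2 * m).choose t * ((a₀ : ℝ) / (2 * n)) ^ (k * t) * N ^ m) * N ^ t := by ring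
    exact le_of_mul_le_mul_right h4 (by positivity)
  have hI : (I.card : ℝ) ≤ 2 ^ u * bl n (2 * t₁) * bl u₁ (12 * t) := by
    exact_mod_cast card_IX n t t₁ d u u₁
  calc ((univ.filter fun F : Fml n k m => (∀ c, F c ∈ Ω) ∧ ¬ GdB F t t₁ d u u₁ x).card : ℝ)
      ≤ ((I.biUnion S).card : ℝ) := by exact_mod_cast card_le_card hsub
    _ ≤ ((∑ a ∈ I, (S a).card : ℕ) : ℝ) := by exact_mod_cast card_biUnion_le
    _ = ∑ a ∈ I, ((S a).card : ℝ) := by push_cast; rfl
    _ ≤ ∑ _a ∈ I, (2 * m).choose t * ((a₀ : ℝ) / (2 * n)) ^ (k * t) * N ^ m := sum_le_sum hb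
    _ = I.card * ((2 * m).choose t * ((a₀ : ℝ) / (2 * n)) ^ (k * t) * N ^ m) := by
        rw [sum_const, nsmul_eq_mul]
    _ ≤ (2 ^ u * bl n (2 * t₁) * bl u₁ (12 * t)) *
        ((2 * m).choose t * ((a₀ : ℝ) / (2 * n)) ^ (k * t) * N ^ m) := by
        gcongr
    _ = _ := by ring

end Pool.Agent.H40.SQX
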